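import Pool.Agent.Lib.MP_38a930_nt.Proof

set_option autoImplicit false

namespace Pool.Agent.Results.MP_38a930_nt.FailsAt28

open Pool.Agent.Lib.MP_38a930_nt

/-- The index `n = 28` is admissible (`P4` has more than 28 elements), the factorials
`28!_{P4}` and `28!_{P2}` exist, and whatever `p`-orderings are used to compute them, `29` divides
the first and not the second, so that their ratio is not the predicted value. -/
theorem result :
    ((28 : ℕ) : ℕ∞) < P4.encard ∧ ((28 : ℕ) : ℕ∞) < P2.encard ∧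
    (∃ N, IsFactorial P4 28 N) ∧ (∃ N, IsFactorial P2 28 N) ∧
    ∀ N₄ N₂ : ℕ, IsFactorial P4 28 N₄ → IsFactorial P2 28 N₂ →
      29 ∣ N₄ ∧ ¬ 29 ∣ N₂ ∧ (N₄ : ℚ) / (N₂ : ℚ) ≠ (predicted 28 : ℚ) :=
  main

end Pool.Agent.Results.MP_38a930_nt.FailsAt28
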